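import Pool.Agent.H38.SymDec.Final

/-!
Answer to Q1: the symmetric decomposition of the Hilbert function of the associated graded ring of
an ideal of colength two in an Artinian Gorenstein quotient of a power series ring in two variables
is determined by the Hilbert function.
-/

open Pool.Agent.H38.SymDec

namespace Pool.Agent.Results.MP_d17b60_al.Uniqueness

/-- Two pairs `(A, I)`, `(A', I')` of Artinian Gorenstein quotients of a power series ring in two
variables and ideals with end degrees `u`, `u'` and with the same Hilbert function `h` of the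
associated graded ring, with `h 0 = 2`, have the same symmetric decomposition, which is given by an
explicit formula in terms of `h`. -/
theorem result {k k' A A' : Type*} [Field k] [Field k'] [CommRing A] [CommRing A']
    (hA : IsAGQuot k A) (hA' : IsAGQuot k' A') (I : Ideal A) (I' : Ideal A') (u u' : ℕ)
    (hu : EndDeg I u) (hu' : EndDeg I' u') (h : ℕ → ℕ) (hh : ∀ i, HF I i = h i)
    (hh' : ∀ i, HF I' i = h i) (h0 : h 0 = 2) :
    u = u' ∧ ∀ a i, Hdec I u a i = Hdec I' u' a i ∧ Hdec I u a i = formula h u a i := by
  have huu : u = u' := le_antisymm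
    (end_le I I' (fun i => by rw [hh, hh']) u u' hu.1 hu.2 hu'.2)
    (end_le I' I (fun i => by rw [hh, hh']) u' u hu'.1 hu'.2 hu.2)
  subst huu
  refine ⟨rfl, fun a i => ?_⟩
  have h2 : HF I 0 = 2 := by rw [hh, h0]; rfl
  have h2' : HF I' 0 = 2 := by rw [hh', h0]; rfl
  obtain ⟨hAG, π, hπ⟩ := hA
  obtain ⟨hAG', π', hπ'⟩ := hA'
  have e1 := Hdec_eq_formula hAG π hπ I u hu.2 h2 h hh a i
  have e2 := Hdec_eq_formula hAG' π' hπ' I' u hu'.2 h2' h hh' a i
  exact ⟨by rw [e1, e2], e1⟩

end Pool.Agent.Results.MP_d17b60_al.Uniqueness
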